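import Pool.Agent.H86.Lang.SCV
import Pool.Agent.H84.Cartan.LocMain

/-!
# Several complex variables: identity theorem and removable singularities
-/

set_option autoImplicit false

open Metric Set Filter Topology

namespace Pool.Agent.H86.Lang

/-- Removable singularities, on an open set of the plane. -/
lemma differentiableOn_limUnder {g : ℂ → ℂ} {W : Set ℂ} {C : ℝ}
    (h : ∀ z ∈ W, ∀ᶠ x in 𝓝[≠] z, DifferentiableAt ℂ g x ∧ ‖g x‖ ≤ C) :
    (∀ z ∈ W, DifferentiableAt ℂ (fun z => limUnder (𝓝[≠] z) g) z) ∧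
      ∀ z, ContinuousAt g z → limUnder (𝓝[≠] z) g = g z := by
  have h2 : ∀ z, ContinuousAt g z → limUnder (𝓝[≠] z) g = g z := fun z hz =>
    (hz.tendsto.mono_left nhdsWithin_le_nhds).limUnder_eq
  refine ⟨fun z hz => ?_, h2⟩
  obtain ⟨s, hs, hsg⟩ := eventually_iff_exists_mem.mp (h z hz)
  rw [mem_nhdsWithin_iff_exists_mem_nhds_inter] at hs
  obtain ⟨u, hu, hus⟩ := hs
  have hu' : ∀ x ∈ u \ {z}, DifferentiableAt ℂ g x ∧ ‖g x‖ ≤ C := fun x hx => hsg x (hus hx)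
  have h3 := Complex.differentiableOn_update_limUnder_of_bddAbove (f := g) (s := u) (c := z) hu
    (fun x hx => (hu' x hx).1.differentiableWithinAt) ⟨C, by
      rintro _ ⟨x, hx, rfl⟩
      exact (hu' x hx).2⟩
  have h4 := h3.differentiableAt hu
  apply h4.congr_of_eventuallyEq
  filter_upwards [hu] with x hx
  by_cases hxz : x = z
  · subst hxz
    rw [Function.update_self]
  · rw [Function.update_of_ne hxz]
    exact h2 x (hu' x ⟨hx, hxz⟩).1.continuousAt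

variable {n : ℕ}

lemma isPreconnected_slice {v ξ u₀ : Fin n → ℂ} {ρ : ℝ} :
    IsPreconnected ((fun z : ℂ => v + z • ξ) ⁻¹' ball u₀ ρ) := by
  apply Convex.isPreconnected
  intro z₁ hz₁ z₂ hz₂ a b ha hb hab
  have h1 := (convex_ball u₀ ρ) hz₁ hz₂ ha hb hab
  have h2 : v + (a • z₁ + b • z₂) • ξ = a • (v + z₁ • ξ) + b • (v + z₂ • ξ) := by
    have h3 : v = a • v + b • v := by rw [← add_smul, hab, one_smul]
    conv_lhs => rw [h3]
    rw [add_smul, smul_add, smul_add, smul_assoc, smul_assoc]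
    abel
  change v + (a • z₁ + b • z₂) • ξ ∈ ball u₀ ρ
  rw [h2]
  exact h1

lemma isOpen_slice {v ξ : Fin n → ℂ} {V : Set (Fin n → ℂ)} (hV : IsOpen V) :
    IsOpen ((fun z : ℂ => v + z • ξ) ⁻¹' V) := hV.preimage (continuous_slice v ξ)

lemma analytic_slice {f : (Fin n → ℂ) → ℂ} {V : Set (Fin n → ℂ)} (hV : IsOpen V)
    (hf : DifferentiableOn ℂ f V) (v ξ : Fin n → ℂ) :
    AnalyticOnNhd ℂ (fun z : ℂ => f (v + z • ξ)) ((fun z : ℂ => v + z • ξ) ⁻¹' V) := by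
  apply DifferentiableOn.analyticOnNhd _ (isOpen_slice hV)
  intro z hz
  exact (hasDerivAt_slice ξ ((hf _ hz).differentiableAt (hV.mem_nhds hz))).differentiableAt
    |>.differentiableWithinAt

/-- Identity theorem on a ball. -/
theorem eqOn_zero_ball {f : (Fin n → ℂ) → ℂ} {v : Fin n → ℂ} {ρ : ℝ}
    (hf : DifferentiableOn ℂ f (ball v ρ)) {u₁ : Fin n → ℂ} (hu₁ : u₁ ∈ ball v ρ)
    (h : ∀ᶠ u in 𝓝 u₁, f u = 0) : ∀ u ∈ ball v ρ, f u = 0 := by
  intro u hu
  have h1 := analytic_slice isOpen_ball hf u₁ (u - u₁)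
  have h0 : u₁ + (0 : ℂ) • (u - u₁) = u₁ := by rw [zero_smul, add_zero]
  have h2 : (fun z : ℂ => f (u₁ + z • (u - u₁))) =ᶠ[𝓝 0] 0 := by
    have h3 : Tendsto (fun z : ℂ => u₁ + z • (u - u₁)) (𝓝 0) (𝓝 u₁) := by
      have := (continuous_slice u₁ (u - u₁)).tendsto 0
      rwa [h0] at this
    exact h3.eventually h
  have h4 := h1.eqOn_zero_of_preconnected_of_eventuallyEq_zero isPreconnected_slice
    (z₀ := 0) (by rw [mem_preimage, h0]; exact hu₁) h2
  have h5 : (1 : ℂ) ∈ (fun z : ℂ => u₁ + z • (u - u₁)) ⁻¹' ball v ρ := by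
    rw [mem_preimage, one_smul, add_sub_cancel]
    exact hu
  have h6 := h4 h5
  simpa using h6

/-- Finitely many non-zero functions have a common non-zero in each open set. -/
theorem exists_common_ne {κ : Type*} {h : κ → (Fin n → ℂ) → ℂ} {v : Fin n → ℂ}
    {ρ : ℝ} (s : Finset κ) (hh : ∀ i ∈ s, DifferentiableOn ℂ (h i) (ball v ρ))
    (hne : ∀ i ∈ s, ∃ u ∈ ball v ρ, h i u ≠ 0) {W : Set (Fin n → ℂ)} (hW : IsOpen W)
    (hWs : W ⊆ ball v ρ) (hWn : W.Nonempty) : ∃ u ∈ W, ∀ i ∈ s, h i u ≠ 0 := by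
  classical
  induction s using Finset.induction_on generalizing W with
  | empty =>
    obtain ⟨u, hu⟩ := hWn
    exact ⟨u, hu, fun i hi => absurd hi (Finset.notMem_empty i)⟩
  | insert a s ha ih =>
    have h1 := hh a (Finset.mem_insert_self a s)
    set W' : Set (Fin n → ℂ) := W ∩ {u | h a u ≠ 0} with hW'
    have hW'o : IsOpen W' := by
      rw [hW', Metric.isOpen_iff]
      rintro u ⟨hu, hu'⟩
      have h2 : ∀ᶠ x in 𝓝 u, x ∈ W := hW.mem_nhds hu
      have h3 : ∀ᶠ x in 𝓝 u, x ∈ W ∧ h a x ≠ 0 :=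
        h2.and (((h1 u (hWs hu)).differentiableAt
          (isOpen_ball.mem_nhds (hWs hu))).continuousAt.eventually_ne hu')
      obtain ⟨ε, hε, hε'⟩ := Metric.eventually_nhds_iff_ball.mp h3
      exact ⟨ε, hε, fun x hx => hε' x hx⟩
    have hW'n : W'.Nonempty := by
      by_contra hemp
      rw [Set.not_nonempty_iff_eq_empty] at hemp
      obtain ⟨u₁, hu₁⟩ := hWn
      have h2 : ∀ᶠ u in 𝓝 u₁, h a u = 0 := by
        filter_upwards [hW.mem_nhds hu₁] with u hu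
        by_contra hne'
        exact Set.notMem_empty u (hemp ▸ ⟨hu, hne'⟩ : u ∈ (∅ : Set (Fin n → ℂ)))
      obtain ⟨u, hu, hune⟩ := hne a (Finset.mem_insert_self a s)
      exact hune (eqOn_zero_ball h1 (hWs hu₁) h2 u hu)
    obtain ⟨u, hu, hu'⟩ := ih (fun i hi => hh i (Finset.mem_insert_of_mem hi))
      (fun i hi => hne i (Finset.mem_insert_of_mem hi)) hW'o
      (inter_subset_left.trans hWs) hW'n
    refine ⟨u, hu.1, fun i hi => ?_⟩
    rcases Finset.mem_insert.mp hi with rfl | hi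
    · exact hu.2
    · exact hu' i hi

/-- **Removable singularities** in several variables. -/
theorem exists_extension {κ : Type*} [Finite κ] {G : (Fin n → ℂ) → ℂ}
    {h : κ → (Fin n → ℂ) → ℂ} {u₀ : Fin n → ℂ} {ρ : ℝ} (hρ : 0 < ρ)
    (hh : ∀ i, DifferentiableOn ℂ (h i) (ball u₀ ρ)) (hne : ∀ i, ∃ u ∈ ball u₀ ρ, h i u ≠ 0)
    (hG : ∀ u ∈ ball u₀ ρ, (∀ i, h i u ≠ 0) → DifferentiableAt ℂ G u) {C : ℝ}
    (hC : ∀ u ∈ ball u₀ ρ, (∀ i, h i u ≠ 0) → ‖G u‖ ≤ C) :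
    ∃ (ρ' : ℝ) (Gt : (Fin n → ℂ) → ℂ), 0 < ρ' ∧ ρ' ≤ ρ ∧ DifferentiableOn ℂ Gt (ball u₀ ρ') ∧
      ∀ u ∈ ball u₀ ρ', (∀ i, h i u ≠ 0) → Gt u = G u := by
  classical
  have : Fintype κ := Fintype.ofFinite κ
  obtain ⟨u₁, hu₁, hne₁⟩ := exists_common_ne (h := h) Finset.univ (fun i _ => hh i)
    (fun i _ => hne i) isOpen_ball (subset_refl _) ⟨u₀, mem_ball_self hρ⟩
  set η : Fin n → ℂ := u₁ - u₀ with hη
  -- the zeros on slices are isolated
  have hiso : ∀ u : Fin n → ℂ, (∃ z : ℂ, u + z • η ∈ ball u₀ ρ ∧ ∀ i, h i (u + z • η) ≠ 0) →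
      ∀ z : ℂ, u + z • η ∈ ball u₀ ρ → ∀ᶠ x in 𝓝[≠] z, u + x • η ∈ ball u₀ ρ ∧
        ∀ i, h i (u + x • η) ≠ 0 := by
    rintro u ⟨z₁, hz₁, hz₁'⟩ z hz
    have h1 : ∀ᶠ x in 𝓝[≠] z, u + x • η ∈ ball u₀ ρ :=
      nhdsWithin_le_nhds ((isOpen_slice isOpen_ball).mem_nhds hz)
    have h2 : ∀ᶠ x in 𝓝[≠] z, ∀ i, h i (u + x • η) ≠ 0 := Filter.eventually_all.mpr fun i =>
      Pool.Agent.H84.Cartan.Loc.eventually_ne_of_analytic isPreconnected_slice
        (analytic_slice isOpen_ball (hh i) u η) ⟨z₁, hz₁, hz₁' i⟩ hz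
    exact h1.and h2
  -- the circle
  have h00 : u₀ + (0 : ℂ) • η = u₀ := by rw [zero_smul, add_zero]
  have h01 : u₀ + (1 : ℂ) • η = u₁ := by rw [one_smul, hη, add_sub_cancel]
  have h1 := hiso u₀ ⟨1, by rw [h01]; exact hu₁, fun i => by rw [h01]; exact hne₁ i (Finset.mem_univ i)⟩
    0 (by rw [h00]; exact mem_ball_self hρ)
  rw [eventually_nhdsWithin_iff, Metric.eventually_nhds_iff] at h1
  obtain ⟨ε, hε, hε'⟩ := h1
  set s : ℝ := min (ε / 2) (ρ / 4 / (‖η‖ + 1)) with hs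
  have hs0 : 0 < s := lt_min (by positivity) (by positivity)
  have hsε : s < ε := lt_of_le_of_lt (min_le_left _ _) (by linarith)
  have hsη : s * ‖η‖ ≤ ρ / 4 := by
    have h2 : s ≤ ρ / 4 / (‖η‖ + 1) := min_le_right _ _
    calc s * ‖η‖ ≤ (ρ / 4 / (‖η‖ + 1)) * (‖η‖ + 1) := by gcongr; linarith
      _ = ρ / 4 := by field_simp
  set V : Set (Fin n → ℂ) := {u | u ∈ ball u₀ ρ ∧ ∀ i, h i u ≠ 0} with hV
  have hVo : IsOpen V := by
    rw [isOpen_iff_mem_nhds]
    rintro u ⟨hu, hu'⟩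
    have h3 : ∀ᶠ x in 𝓝 u, x ∈ ball u₀ ρ := isOpen_ball.mem_nhds hu
    have h4 : ∀ᶠ x in 𝓝 u, ∀ i, h i x ≠ 0 := Filter.eventually_all.mpr fun i =>
      ((hh i u hu).differentiableAt (isOpen_ball.mem_nhds hu)).continuousAt.eventually_ne (hu' i)
    exact h3.and h4
  have hGV : DifferentiableOn ℂ G V := fun u hu => (hG u hu.1 hu.2).differentiableWithinAt
  have hsph : ∀ z ∈ sphere (0 : ℂ) s, u₀ + z • η ∈ V := by
    intro z hz
    have hz1 : ‖z‖ = s := by rwa [mem_sphere, dist_zero_right] at hz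
    refine hε' (by rw [dist_zero_right, hz1]; exact hsε) ?_
    intro h0
    rw [Set.mem_singleton_iff] at h0
    rw [h0, norm_zero] at hz1
    exact hs0.ne hz1
  have hcont : ContinuousOn (fun z : ℂ => (z - 0)⁻¹) (sphere 0 s) := by
    intro z hz
    have hz0 : z - 0 ≠ 0 := by
      rw [sub_zero]
      rintro rfl
      rw [mem_sphere, dist_self] at hz
      exact hs0.ne hz
    exact ContinuousAt.continuousWithinAt (by fun_prop (disch := assumption))
  have hA := eventually_differentiableAt_circle hVo hGV (η := η) (u₀ := u₀) hs0 hsph hcont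
  have hB : ∀ᶠ u in 𝓝 u₀, ∀ z ∈ sphere (0 : ℂ) s, u + z • η ∈ V := by
    apply (isCompact_sphere (0 : ℂ) s).eventually_forall_of_forall_eventually
    intro z hz
    have h3 : ContinuousAt (fun q : (Fin n → ℂ) × ℂ => q.1 + q.2 • η) (u₀, z) := by fun_prop
    exact h3.eventually (hVo.mem_nhds (hsph z hz))
  obtain ⟨ε₁, hε₁, hε₁'⟩ := Metric.eventually_nhds_iff_ball.mp (hA.and hB)
  set ρ' : ℝ := min ε₁ (ρ / 4) with hρ'
  have hρ'0 : 0 < ρ' := lt_min hε₁ (by positivity)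
  have hρ'1 : ρ' ≤ ε₁ := min_le_left _ _
  have hρ'2 : ρ' ≤ ρ / 4 := min_le_right _ _
  refine ⟨ρ', fun u => (2 * Real.pi * Complex.I : ℂ)⁻¹ * ∮ z in C(0, s), (z - 0)⁻¹ * G (u + z • η),
    hρ'0, by linarith, ?_, ?_⟩
  · intro u hu
    exact ((hε₁' u (ball_subset_ball hρ'1 hu)).1.const_mul _).differentiableWithinAt
  · intro u hu hune
    have hu2 : ∀ z ∈ closedBall (0 : ℂ) s, u + z • η ∈ ball u₀ ρ := by
      intro z hz
      rw [mem_closedBall, dist_zero_right] at hz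
      rw [mem_ball, dist_eq_norm] at hu ⊢
      have h3 : ‖z • η‖ ≤ ρ / 4 := by
        rw [norm_smul]
        calc ‖z‖ * ‖η‖ ≤ s * ‖η‖ := by gcongr
          _ ≤ ρ / 4 := hsη
      have h4 : u + z • η - u₀ = (u - u₀) + z • η := by abel
      rw [h4]
      have := norm_add_le (u - u₀) (z • η)
      linarith
    have hu0 : u + (0 : ℂ) • η = u := by rw [zero_smul, add_zero]
    set g : ℂ → ℂ := fun z => G (u + z • η) with hg
    set W : Set ℂ := (fun z : ℂ => u + z • η) ⁻¹' ball u₀ ρ with hW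
    have hdiff : ∀ z : ℂ, u + z • η ∈ V → DifferentiableAt ℂ g z := fun z hz =>
      (hasDerivAt_slice η (hG _ hz.1 hz.2)).differentiableAt
    have hgW : ∀ z ∈ W, ∀ᶠ x in 𝓝[≠] z, DifferentiableAt ℂ g x ∧ ‖g x‖ ≤ C := by
      intro z hz
      filter_upwards [hiso u ⟨0, hu2 0 (mem_closedBall_self hs0.le), fun i => by
        rw [hu0]; exact hune i⟩ z hz] with x hx
      exact ⟨hdiff x hx, hC _ hx.1 hx.2⟩
    obtain ⟨h5, h6⟩ := differentiableOn_limUnder hgW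
    set gt : ℂ → ℂ := fun z => limUnder (𝓝[≠] z) g with hgt
    have hgtc : ContinuousOn gt (closedBall 0 s) := fun z hz =>
      (h5 z (hu2 z hz)).continuousAt.continuousWithinAt
    have hd : DiffContOnCl ℂ gt (ball 0 s) := by
      apply DifferentiableOn.diffContOnCl_ball (U := closedBall (0 : ℂ) s) _ (subset_refl _)
      exact fun z hz => (h5 z (hu2 z hz)).differentiableWithinAt
    have h7 := hd.two_pi_i_inv_smul_circleIntegral_sub_inv_smul (mem_ball_self hs0)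
    have h8 : (∮ z in C(0, s), (z - 0)⁻¹ • gt z) = ∮ z in C(0, s), (z - 0)⁻¹ * G (u + z • η) := by
      apply circleIntegral.integral_congr hs0.le
      intro z hz
      have hzV := (hε₁' u (ball_subset_ball hρ'1 hu)).2 z hz
      change (z - 0)⁻¹ • gt z = (z - 0)⁻¹ * G (u + z • η)
      have h9 : gt z = g z := h6 z (hdiff z hzV).continuousAt
      rw [h9, smul_eq_mul]
    have huV : u + (0 : ℂ) • η ∈ V := by
      rw [hu0]
      exact ⟨by have := hu2 0 (mem_closedBall_self hs0.le); rwa [hu0] at this, hune⟩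
    have h10 : gt 0 = G u := by
      have h11 : gt 0 = g 0 := h6 0 (hdiff 0 huV).continuousAt
      rw [h11]
      change G (u + (0 : ℂ) • η) = G u
      rw [hu0]
    change (2 * Real.pi * Complex.I : ℂ)⁻¹ * (∮ z in C(0, s), (z - 0)⁻¹ * G (u + z • η)) = G u
    rw [← h8, ← h10, ← h7]
    rfl

end Pool.Agent.H86.Lang
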