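import Mathlib

/-!
# Several complex variables: complex differentiable functions on open sets
-/

set_option autoImplicit false

open Metric Set Filter Topology MeasureTheory

namespace Pool.Agent.H86.Lang

variable {n : ℕ}

/-- Slices. -/
lemma hasDerivAt_slice {F : Type*} [NormedAddCommGroup F] [NormedSpace ℂ F]
    {f : (Fin n → ℂ) → F} {v : Fin n → ℂ} (ξ : Fin n → ℂ) {z : ℂ}
    (hf : DifferentiableAt ℂ f (v + z • ξ)) :
    HasDerivAt (fun x : ℂ => f (v + x • ξ)) (fderiv ℂ f (v + z • ξ) ξ) z := by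
  have h1 : HasDerivAt (fun x : ℂ => v + x • ξ) ξ z := by
    have := ((hasDerivAt_id z).smul_const ξ).const_add v
    simpa using this
  exact hf.hasFDerivAt.comp_hasDerivAt z h1

lemma continuous_slice (v ξ : Fin n → ℂ) : Continuous fun x : ℂ => v + x • ξ := by
  fun_prop

/-- Cauchy's estimate for the derivative. -/
lemma norm_fderiv_apply_le {F : Type*} [NormedAddCommGroup F] [NormedSpace ℂ F]
    {f : (Fin n → ℂ) → F} {v : Fin n → ℂ} {ρ C : ℝ} (hρ : 0 < ρ)
    (hf : ∀ u ∈ ball v ρ, DifferentiableAt ℂ f u) (hC : ∀ u ∈ ball v ρ, ‖f u‖ ≤ C)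
    (ξ : Fin n → ℂ) : ‖fderiv ℂ f v ξ‖ ≤ 2 * C / ρ * ‖ξ‖ := by
  by_cases hξ : ξ = 0
  · subst hξ
    simp
  have hξ' : 0 < ‖ξ‖ := norm_pos_iff.mpr hξ
  set R : ℝ := ρ / 2 / ‖ξ‖ with hR
  have hR0 : 0 < R := by positivity
  have hmem : ∀ z ∈ closedBall (0 : ℂ) R, v + z • ξ ∈ ball v ρ := by
    intro z hz
    rw [mem_closedBall, dist_zero_right] at hz
    rw [mem_ball, dist_eq_norm, add_sub_cancel_left, norm_smul]
    calc ‖z‖ * ‖ξ‖ ≤ R * ‖ξ‖ := by gcongr
      _ = ρ / 2 := by rw [hR]; field_simp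
      _ < ρ := by linarith
  have hd : DiffContOnCl ℂ (fun z : ℂ => f (v + z • ξ)) (ball 0 R) := by
    apply DifferentiableOn.diffContOnCl_ball (U := closedBall (0 : ℂ) R) _ (subset_refl _)
    intro z hz
    exact (hasDerivAt_slice ξ (hf _ (hmem z hz))).differentiableAt.differentiableWithinAt
  have h1 := Complex.norm_deriv_le_of_forall_mem_sphere_norm_le hR0 hd (C := C) (fun z hz =>
    hC _ (hmem z (sphere_subset_closedBall hz)))
  have h0 : v + (0 : ℂ) • ξ = v := by rw [zero_smul, add_zero]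
  have h2 := (hasDerivAt_slice (f := f) (v := v) ξ (z := 0) (by
    rw [h0]
    exact hf v (mem_ball_self hρ))).deriv
  rw [h0] at h2
  rw [h2] at h1
  refine h1.trans (le_of_eq ?_)
  rw [hR]
  field_simp

lemma norm_fderiv_le' {F : Type*} [NormedAddCommGroup F] [NormedSpace ℂ F]
    {f : (Fin n → ℂ) → F} {v : Fin n → ℂ} {ρ C : ℝ} (hρ : 0 < ρ)
    (hf : ∀ u ∈ ball v ρ, DifferentiableAt ℂ f u) (hC : ∀ u ∈ ball v ρ, ‖f u‖ ≤ C) :
    ‖fderiv ℂ f v‖ ≤ 2 * C / ρ := by
  have hC0 : 0 ≤ C := (norm_nonneg _).trans (hC v (mem_ball_self hρ))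
  exact ContinuousLinearMap.opNorm_le_bound _ (by positivity) fun ξ =>
    norm_fderiv_apply_le hρ hf hC ξ

/-- Differentiation under the integral sign. -/
theorem eventually_differentiableAt_circle {f : (Fin n → ℂ) → ℂ} {V : Set (Fin n → ℂ)}
    (hV : IsOpen V) (hf : DifferentiableOn ℂ f V) {η u₀ : Fin n → ℂ} {s : ℝ} (hs : 0 < s)
    (h : ∀ z ∈ sphere (0 : ℂ) s, u₀ + z • η ∈ V) {c : ℂ → ℂ} (hc : ContinuousOn c (sphere 0 s)) :
    ∀ᶠ u in 𝓝 u₀, DifferentiableAt ℂ (fun u => ∮ z in C(0, s), c z * f (u + z • η)) u := by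
  set K : Set (Fin n → ℂ) := (fun z : ℂ => u₀ + z • η) '' sphere (0 : ℂ) s with hK
  have hKc : IsCompact K := (isCompact_sphere _ _).image (continuous_slice u₀ η)
  have hKV : K ⊆ V := by
    rintro _ ⟨z, hz, rfl⟩
    exact h z hz
  obtain ⟨δ, hδ, hδV⟩ := hKc.exists_cthickening_subset_open hV hKV
  have hcomp : IsCompact (cthickening δ K) := hKc.cthickening
  obtain ⟨C, hC⟩ := hcomp.exists_bound_of_continuousOn (hf.continuousOn.mono hδV)
  have hball : ∀ x ∈ ball u₀ (δ / 2), ∀ z ∈ sphere (0 : ℂ) s,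
      ball (x + z • η) (δ / 2) ⊆ cthickening δ K := by
    intro x hx z hz v hv
    refine mem_cthickening_of_dist_le v (u₀ + z • η) δ K ⟨z, hz, rfl⟩ ?_
    have h1 : dist v (x + z • η) < δ / 2 := hv
    have h2 : dist (x + z • η) (u₀ + z • η) < δ / 2 := by
      rw [dist_add_right]
      exact hx
    have h3 := dist_triangle v (x + z • η) (u₀ + z • η)
    linarith
  have hdiff : ∀ x ∈ ball u₀ (δ / 2), ∀ z ∈ sphere (0 : ℂ) s, DifferentiableAt ℂ f (x + z • η) :=
    fun x hx z hz => (hf _ (hδV (hball x hx z hz (mem_ball_self (by positivity))))).differentiableAt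
      (hV.mem_nhds (hδV (hball x hx z hz (mem_ball_self (by positivity)))))
  have hfd : ∀ x ∈ ball u₀ (δ / 2), ∀ z ∈ sphere (0 : ℂ) s,
      ‖fderiv ℂ f (x + z • η)‖ ≤ 2 * C / (δ / 2) := by
    intro x hx z hz
    refine norm_fderiv_le' (by positivity) (fun u hu => ?_) (fun u hu => hC u (hball x hx z hz hu))
    exact (hf _ (hδV (hball x hx z hz hu))).differentiableAt
      (hV.mem_nhds (hδV (hball x hx z hz hu)))
  have hsph : ∀ θ : ℝ, circleMap 0 s θ ∈ sphere (0 : ℂ) s := fun θ =>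
    circleMap_mem_sphere _ hs.le θ
  have hcc : Continuous fun θ : ℝ => c (circleMap 0 s θ) :=
    hc.comp_continuous (continuous_circleMap 0 s) hsph
  have hdc : Continuous fun θ : ℝ => deriv (circleMap 0 s) θ := by
    simp only [deriv_circleMap]
    fun_prop
  have hpath : ∀ x : Fin n → ℂ, Continuous fun θ : ℝ => x + circleMap 0 s θ • η := fun x => by
    fun_prop
  have hfc : ∀ x ∈ ball u₀ (δ / 2), Continuous fun θ : ℝ => f (x + circleMap 0 s θ • η) := by
    intro x hx
    refine hf.continuousOn.comp_continuous (hpath x) fun θ => ?_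
    exact hδV (hball x hx _ (hsph θ) (mem_ball_self (by positivity)))
  obtain ⟨Cc, hCc⟩ := (isCompact_sphere (0 : ℂ) s).exists_bound_of_continuousOn hc
  filter_upwards [ball_mem_nhds u₀ (show 0 < δ / 4 by positivity)] with u₁ hu₁
  have hu₁' : ball u₁ (δ / 4) ⊆ ball u₀ (δ / 2) := by
    apply ball_subset_ball'
    have : dist u₁ u₀ < δ / 4 := hu₁
    linarith
  have hu₁'' : u₁ ∈ ball u₀ (δ / 2) := hu₁' (mem_ball_self (by positivity))
  have hmain := intervalIntegral.hasFDerivAt_integral_of_dominated_of_fderiv_le (𝕜 := ℂ)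
    (μ := volume) (a := 0) (b := 2 * Real.pi) (s := ball u₁ (δ / 4)) (x₀ := u₁)
    (bound := fun _ => s * Cc * (2 * C / (δ / 2)))
    (F := fun x θ => deriv (circleMap 0 s) θ • (c (circleMap 0 s θ) *
      f (x + circleMap 0 s θ • η)))
    (F' := fun x θ => (deriv (circleMap 0 s) θ * c (circleMap 0 s θ)) •
      fderiv ℂ f (x + circleMap 0 s θ • η))
    (ball_mem_nhds _ (by positivity)) ?_ ?_ ?_ ?_ ?_ ?_
  · exact hmain.differentiableAt
  · filter_upwards [ball_mem_nhds u₁ (show 0 < δ / 4 by positivity)] with x hx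
    exact (hdc.smul (hcc.mul (hfc x (hu₁' hx)))).aestronglyMeasurable
  · exact (hdc.smul (hcc.mul (hfc u₁ hu₁''))).intervalIntegrable _ _
  · have h1 : Measurable fun θ : ℝ => fderiv ℂ f (u₁ + circleMap 0 s θ • η) :=
      (measurable_fderiv ℂ f).comp (hpath u₁).measurable
    exact ((hdc.mul hcc).aestronglyMeasurable).smul h1.aestronglyMeasurable
  · refine Eventually.of_forall fun θ _ x hx => ?_
    rw [norm_smul, norm_mul]
    have h1 : ‖deriv (circleMap 0 s) θ‖ = s := by
      rw [deriv_circleMap, norm_mul, Complex.norm_I, mul_one, norm_circleMap_zero, abs_of_pos hs]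
    rw [h1]
    have h2 := hCc _ (hsph θ)
    have h3 := hfd x (hu₁' hx) _ (hsph θ)
    have h4 : 0 ≤ Cc := (norm_nonneg _).trans h2
    gcongr
  · exact intervalIntegrable_const
  · refine Eventually.of_forall fun θ _ x hx => ?_
    have h1 : HasFDerivAt (fun x => f (x + circleMap 0 s θ • η))
        (fderiv ℂ f (x + circleMap 0 s θ • η)) x := by
      have h2 := (hdiff x (hu₁' hx) _ (hsph θ)).hasFDerivAt
      have h3 := h2.comp x ((hasFDerivAt_id x).add_const (circleMap 0 s θ • η))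
      rwa [ContinuousLinearMap.comp_id] at h3
    have h2 := (h1.const_mul (c (circleMap 0 s θ))).const_smul (deriv (circleMap 0 s) θ)
    rwa [smul_smul] at h2

/-- The derivative of a holomorphic function is holomorphic. -/
theorem differentiableOn_fderiv_apply {f : (Fin n → ℂ) → ℂ} {V : Set (Fin n → ℂ)}
    (hV : IsOpen V) (hf : DifferentiableOn ℂ f V) (ξ : Fin n → ℂ) :
    DifferentiableOn ℂ (fun u => fderiv ℂ f u ξ) V := by
  intro u₀ hu₀
  obtain ⟨ε, hε, hεV⟩ := Metric.isOpen_iff.mp hV u₀ hu₀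
  set s : ℝ := ε / 2 / (‖ξ‖ + 1) with hs
  have hs0 : 0 < s := by positivity
  have hmem : ∀ u ∈ ball u₀ (ε / 2), ∀ z ∈ closedBall (0 : ℂ) s, u + z • ξ ∈ V := by
    intro u hu z hz
    apply hεV
    rw [mem_closedBall, dist_zero_right] at hz
    rw [mem_ball, dist_eq_norm] at hu ⊢
    have h1 : ‖z • ξ‖ ≤ ε / 2 := by
      rw [norm_smul]
      calc ‖z‖ * ‖ξ‖ ≤ s * (‖ξ‖ + 1) := by gcongr; linarith
        _ = ε / 2 := by rw [hs]; field_simp
    have h2 : u + z • ξ - u₀ = (u - u₀) + z • ξ := by abel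
    rw [h2]
    have := norm_add_le (u - u₀) (z • ξ)
    linarith
  have hu₀' : u₀ ∈ ball u₀ (ε / 2) := mem_ball_self (by positivity)
  have h1 := (eventually_differentiableAt_circle hV hf (η := ξ) (u₀ := u₀) hs0
    (fun z hz => hmem u₀ hu₀' z (sphere_subset_closedBall hz))
    (c := fun z => ((z - 0) ^ 2)⁻¹) (by
      intro z hz
      have hz0 : z ≠ 0 := by
        rintro rfl
        rw [mem_sphere, dist_self] at hz
        exact hs0.ne hz
      have : (z - 0) ^ 2 ≠ 0 := by rw [sub_zero]; exact pow_ne_zero _ hz0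
      exact ContinuousAt.continuousWithinAt (by fun_prop (disch := assumption)))).self_of_nhds
  have h2 : (fun u => fderiv ℂ f u ξ) =ᶠ[𝓝 u₀] fun u => (2 * Real.pi * Complex.I : ℂ)⁻¹ *
      ∮ z in C(0, s), ((z - 0) ^ 2)⁻¹ * f (u + z • ξ) := by
    filter_upwards [ball_mem_nhds u₀ (show 0 < ε / 2 by positivity)] with u hu
    set W : Set ℂ := (fun z : ℂ => u + z • ξ) ⁻¹' V with hW
    have hWo : IsOpen W := hV.preimage (continuous_slice u ξ)
    have hd : DifferentiableOn ℂ (fun z : ℂ => f (u + z • ξ)) W := fun z hz =>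
      (hasDerivAt_slice ξ ((hf _ hz).differentiableAt (hV.mem_nhds hz))).differentiableAt
        |>.differentiableWithinAt
    have h3 := Complex.two_pi_I_inv_smul_circleIntegral_sub_sq_inv_smul_of_differentiable hWo
      (c := 0) (w₀ := 0) (R := s) (f := fun z : ℂ => f (u + z • ξ)) (fun z hz => hmem u hu z hz) hd
      (mem_ball_self hs0)
    have h0 : u + (0 : ℂ) • ξ = u := by rw [zero_smul, add_zero]
    have hu' : u ∈ V := by
      have := hmem u hu 0 (mem_closedBall_self hs0.le)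
      rwa [h0] at this
    have h4 := (hasDerivAt_slice (f := f) (v := u) ξ (z := 0) (by
      rw [h0]
      exact (hf _ hu').differentiableAt (hV.mem_nhds hu'))).deriv
    rw [h0] at h4
    rw [← h4, ← h3]
    rfl
  exact ((h1.const_mul _).congr_of_eventuallyEq h2).differentiableWithinAt

end Pool.Agent.H86.Lang
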